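import Mathlib
import Pool.Agent.Y559.DJ.Main

set_option autoImplicit false

/-!
# Arbitrary products of systems disjoint from all minimal systems, and multiplication by them

Full (positive) answer to Q1 in a stronger form.  The starting file `ProductsDisjoint` settles the
product of two systems; here: products of arbitrary families, and the multiplication theorem: if
all `X i` are disjoint from all minimal systems and `Y` has dense minimal sets, then for every single
minimal system `Z` the product `(∏ X i) × Y` is disjoint from `Z` if and only if `Y` is.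
-/

open Set TopologicalSpace

namespace Pool.Agent.Results.MP_5d027a_an.InfiniteProducts

universe u

/-- `A` is invariant under `f` (only `f A ⊆ A` is required). -/
def Invariant {X : Type*} (f : X → X) (A : Set X) : Prop := ∀ x ∈ A, f x ∈ A

/-- The system `(Z, R)` is minimal: `Z` is nonempty and has no nonempty proper closed invariant
subset. -/
def IsMinimalSystem {Z : Type*} [TopologicalSpace Z] (R : Z → Z) : Prop :=
  Nonempty Z ∧ ∀ A : Set Z, IsClosed A → Invariant R A → A.Nonempty → A = univ

/-- `A` is a minimal set: closed, invariant, nonempty, and without proper subsets of this kind. -/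
def IsMinimalSet {Y : Type*} [TopologicalSpace Y] (S : Y → Y) (A : Set Y) : Prop :=
  IsClosed A ∧ Invariant S A ∧ A.Nonempty ∧
    ∀ B ⊆ A, IsClosed B → Invariant S B → B.Nonempty → B = A

/-- The minimal points of `(Y, S)` (the points of the minimal sets) are dense. -/
def DenseMinimalPoints {Y : Type*} [TopologicalSpace Y] (S : Y → Y) : Prop :=
  Dense (⋃₀ {A : Set Y | IsMinimalSet S A})

/-- Furstenberg disjointness: the only closed `T × R`-invariant subset of `X × Z` which projects
onto `X` and onto `Z` is `X × Z`. -/
def Disjoint' {X Z : Type*} [TopologicalSpace X] [TopologicalSpace Z] (T : X → X) (R : Z → Z) :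
    Prop :=
  ∀ J : Set (X × Z), IsClosed J → Invariant (Prod.map T R) J → Prod.fst '' J = univ →
    Prod.snd '' J = univ → J = univ

/-- `(X, T)` is disjoint from every minimal system (on a compact metrizable space). -/
def DisjointFromMinimal {X : Type u} [TopologicalSpace X] (T : X → X) : Prop :=
  ∀ (Z : Type u) [TopologicalSpace Z] [CompactSpace Z] [MetrizableSpace Z]
    (R : Z ≃ₜ Z), IsMinimalSystem R → Disjoint' T R

/-- The product of the systems `(X i, T i)`: the coordinatewise map. -/
def prodMap {I : Type*} {X : I → Type*} (T : ∀ i, X i → X i) (x : ∀ i, X i) : ∀ i, X i :=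
  fun i => T i (x i)

open Pool.Agent.Y559.DJ in
/-- **Products of systems disjoint from all minimal systems.**  (1) A product of any family (finite,
countable or uncountable) of systems is disjoint from all minimal systems if and only if every factor
is.  (2) If all `X i` are disjoint from all minimal systems, `Y` has dense minimal points and `Z` is
minimal, then `(∏ X i) × Y` is disjoint from `Z` if and only if `Y` is disjoint from `Z`.  (3) The case
of two systems: `X × Y` is disjoint from all minimal systems if and only if both `X` and `Y` are. -/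
theorem result :
    (∀ (I : Type u) (X : I → Type u) [∀ i, TopologicalSpace (X i)] [∀ i, CompactSpace (X i)]
      [∀ i, MetrizableSpace (X i)] [∀ i, Nonempty (X i)] (T : ∀ i, X i ≃ₜ X i),
      (DisjointFromMinimal (prodMap fun i => T i) ↔ ∀ i, DisjointFromMinimal (T i)) ∧
      ((∀ i, DisjointFromMinimal (T i)) →
        ∀ (Y : Type u) [TopologicalSpace Y] [CompactSpace Y] [MetrizableSpace Y] [Nonempty Y]
          (S : Y ≃ₜ Y), DenseMinimalPoints S →
        ∀ (Z : Type u) [TopologicalSpace Z] [CompactSpace Z] [MetrizableSpace Z] (R : Z ≃ₜ Z),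
          IsMinimalSystem R →
          (Disjoint' (Prod.map (prodMap fun i => T i) S) R ↔ Disjoint' S R))) ∧
    (∀ (X Y : Type u) [TopologicalSpace X] [CompactSpace X] [MetrizableSpace X] [Nonempty X]
      [TopologicalSpace Y] [CompactSpace Y] [MetrizableSpace Y] [Nonempty Y]
      (T : X ≃ₜ X) (S : Y ≃ₜ Y),
      DisjointFromMinimal (Prod.map T S) ↔ DisjointFromMinimal T ∧ DisjointFromMinimal S) := by
  refine ⟨?_, ?_⟩
  · intro I X _ _ _ _ T
    refine ⟨⟨?_, ?_⟩, ?_⟩
    · intro h i Z _ _ _ R hR
      exact disj_factor (fun x : ∀ i, X i => x i) (continuous_apply i)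
        (Function.surjective_eval i) (fun _ => rfl) (h Z R hR)
    · intro h Z _ _ _ R hR
      exact disj_factor (A := (∀ i, X i) × PUnit.{u + 1}) Prod.fst continuous_fst
        Prod.fst_surjective (fun _ => rfl)
        (prod_disj_of T (Homeomorph.refl PUnit.{u + 1}) R h dm_punit (disj_punit R) hR)
    · intro h Y _ _ _ _ S hS Z _ _ _ R hR
      refine ⟨?_, ?_⟩
      · intro hd
        exact disj_factor (A := (∀ i, X i) × Y) Prod.snd continuous_snd Prod.snd_surjective
          (fun _ => rfl) hd
      · intro hd
        refine prod_disj_of T S R h ?_ hd hR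
        intro P hP hPm
        have h1 : (⋃₀ {A : Set Y | IsMinimalSet S A}) ⊆ P := sUnion_subset fun A hA => hPm A hA
        have h2 : closure (⋃₀ {A : Set Y | IsMinimalSet S A}) ⊆ P := closure_minimal h1 hP
        rw [hS.closure_eq] at h2
        exact eq_univ_of_univ_subset h2
  · intro X Y _ _ _ _ _ _ _ _ T S
    refine ⟨fun h => ⟨?_, ?_⟩, ?_⟩
    · intro Z _ _ _ R hR
      exact disj_factor (A := X × Y) Prod.fst continuous_fst Prod.fst_surjective
        (fun _ => rfl) (h Z R hR)
    · intro Z _ _ _ R hR
      exact disj_factor (A := X × Y) Prod.snd continuous_snd Prod.snd_surjective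
        (fun _ => rfl) (h Z R hR)
    · rintro ⟨hT, hS⟩ Z _ _ _ R hR
      exact mul_disj T S R hT (hS Z R hR) hR (Pool.Agent.H694R3.Dj.DisjM.dm S hS)

end Pool.Agent.Results.MP_5d027a_an.InfiniteProducts
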